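import Pool.Agent.Y772.DK.Vm

/-!
# The coefficients `cc` of the logarithmic derivative
-/

set_option autoImplicit false

open NumberField Complex Filter Topology Ideal

namespace Pool.Agent.Y772.DK

open Pool.Agent.Y773

variable {K : Type} [Field K] [NumberField K]

lemma below {P : Ideal (𝓞 K)} (hP : Prime P) : ∃ p : ℕ, p.Prime ∧
    P ∈ (span {(p : ℤ)}).primesOver (𝓞 K) := by
  have h1 : P.IsPrime := isPrime_of_prime hP
  have h2 : NeZero P := ⟨hP.ne_zero⟩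
  refine ⟨absNorm (under ℤ P), Nat.absNorm_under_prime P, h1, ⟨?_⟩⟩
  rw [Int.ideal_span_absNorm_eq_self]

lemma norm_over {p : ℕ} (hp : p.Prime) {P : Ideal (𝓞 K)}
    (h : P ∈ (span {(p : ℤ)}).primesOver (𝓞 K)) : absNorm P = p ^ P.inertiaDeg ℤ := by
  have : Fact p.Prime := ⟨hp⟩
  have h1 : P.IsPrime := h.1
  have h2 : P.LiesOver (span {(p : ℤ)}) := h.2
  exact (pow_inertiaDeg p P).symm

lemma deg_pos {p : ℕ} (hp : p.Prime) {P : Ideal (𝓞 K)} (_ : Prime P)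
    (h : P ∈ (span {(p : ℤ)}).primesOver (𝓞 K)) : P.inertiaDeg ℤ ≠ 0 := by
  intro h0
  have h1 := norm_over hp h
  rw [h0, pow_zero, absNorm_eq_one_iff] at h1
  exact h.1.ne_top h1

/-- a prime power ideal of norm `p ^ m` -/
lemma pp_norm {p m : ℕ} (hp : p.Prime) {P : Ideal (𝓞 K)} (hP : Prime P) {k : ℕ} (hk : k ≠ 0)
    (h : absNorm (P ^ k) = p ^ m) : P ∈ (span {(p : ℤ)}).primesOver (𝓞 K) ∧
      P.inertiaDeg ℤ * k = m := by
  obtain ⟨q, hq, hqP⟩ := below hP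
  have h1 := norm_over hq hqP
  have h2 := deg_pos hq hP hqP
  rw [map_pow, h1, ← pow_mul] at h
  have h3 : P.inertiaDeg ℤ * k ≠ 0 := mul_ne_zero h2 hk
  have h4 : q = p := by
    have h5 : q ∣ p ^ m := h ▸ dvd_pow_self q h3
    exact (Nat.prime_dvd_prime_iff_eq hq hp).1 (hq.dvd_of_dvd_pow h5)
  subst h4
  exact ⟨hqP, Nat.pow_right_injective hq.two_le h⟩

lemma pp_of {𝔞 : Ideal (𝓞 K)} (h : IsPrimePow 𝔞) : IsPrimePow (absNorm 𝔞) := by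
  obtain ⟨P, k, hP, hk, rfl⟩ := h
  obtain ⟨q, hq, hqP⟩ := below hP
  have h1 := norm_over hq hqP
  have h2 := deg_pos hq hP hqP
  rw [map_pow, h1, ← pow_mul]
  exact hq.isPrimePow.pow (mul_ne_zero h2 hk.ne')

/-- the ideals of norm `n` -/
def NN (K : Type) [Field K] [NumberField K] (n : ℕ) : Set (Ideal (𝓞 K)) :=
  {𝔞 : Ideal (𝓞 K) | absNorm 𝔞 = n}

lemma NN_finite (n : ℕ) : (NN K n).Finite := Ideal.finite_setOfPred_absNorm_eq n

/-- `cc ψ n Λ(n)` -/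
lemma cc_mul (ψ : Ideal (𝓞 K) →*₀ ℂ) (n : ℕ) :
    cc ψ n * (ArithmeticFunction.vonMangoldt n : ℂ) = ∑ᶠ 𝔞 ∈ NN K n, (VM 𝔞 : ℂ) * ψ 𝔞 := by
  by_cases h : ArithmeticFunction.vonMangoldt n = 0
  · have h1 : ¬ IsPrimePow n := by
      intro h2
      exact ArithmeticFunction.vonMangoldt_ne_zero_iff.2 h2 h
    rw [h, ofReal_zero, mul_zero]
    symm
    refine finsum_mem_eq_zero_of_forall_eq_zero fun 𝔞 h𝔞 => ?_
    have h2 : VM 𝔞 = 0 := by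
      refine VM_of_not fun h3 => h1 ?_
      have := pp_of h3
      rwa [show absNorm 𝔞 = n from h𝔞] at this
    rw [h2, ofReal_zero, zero_mul]
  · unfold cc
    exact div_mul_cancel₀ _ (by exact_mod_cast h)

/-- the sum of the von Mangoldt function over the ideals of norm `n` -/
lemma sum_VM_le (n : ℕ) : ∑ᶠ 𝔞 ∈ NN K n, VM 𝔞 ≤
    Module.finrank ℚ K * ArithmeticFunction.vonMangoldt n := by
  classical
  by_cases h : IsPrimePow n
  · obtain ⟨p, m, hp, hm, rfl⟩ := h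
    have hpp : p.Prime := hp.nat_prime
    have hΛ : ArithmeticFunction.vonMangoldt (p ^ m) = Real.log p := by
      rw [ArithmeticFunction.vonMangoldt_apply_pow hm.ne',
        ArithmeticFunction.vonMangoldt_apply_prime hpp]
    have : Fact p.Prime := ⟨hpp⟩
    have hmax : (span {(p : ℤ)}).IsMaximal := Int.ideal_span_isMaximal_of_prime p
    have hp0 : (span {(p : ℤ)}) ≠ ⊥ := by
      rw [Ne, span_singleton_eq_bot]
      exact_mod_cast hpp.ne_zero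
    have hfin : ((span {(p : ℤ)}).primesOver (𝓞 K)).Finite := IsDedekindDomain.primesOver_finite _ _
    have hft : Fintype ((span {(p : ℤ)}).primesOver (𝓞 K)) := hfin.fintype
    have hsum := sum_ramification_inertia_eq_finrank (span {(p : ℤ)}) (𝓞 K)
    rw [RingOfIntegers.rank] at hsum
    set S : Finset (Ideal (𝓞 K)) := (NN_finite (K := K) (p ^ m)).toFinset.filter IsPrimePow with hS
    have hSe : ∀ 𝔞 ∈ S, ∃ P : Ideal (𝓞 K), ∃ k : ℕ, Prime P ∧ k ≠ 0 ∧ 𝔞 = P ^ k ∧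
        𝔞.radical = P ∧ P ∈ (span {(p : ℤ)}).primesOver (𝓞 K) ∧ P.inertiaDeg ℤ * k = m := by
      intro 𝔞 h𝔞
      rw [hS, Finset.mem_filter, Set.Finite.mem_toFinset] at h𝔞
      obtain ⟨h1, P, k, hP, hk, rfl⟩ := h𝔞
      have h2 := pp_norm hpp hP hk.ne' h1
      refine ⟨P, k, hP, hk.ne', rfl, ?_, h2⟩
      rw [Ideal.radical_pow _ hk.ne', (isPrime_of_prime hP).radical]
    have e1 : ∑ᶠ 𝔞 ∈ NN K (p ^ m), VM 𝔞 = ∑ 𝔞 ∈ S, VM 𝔞 := by
      rw [finsum_mem_eq_finite_toFinset_sum _ (NN_finite (p ^ m)), hS, Finset.sum_filter]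
      refine Finset.sum_congr rfl fun 𝔞 _ => ?_
      split_ifs with h1
      · rfl
      · exact VM_of_not h1
    have e2 : ∀ 𝔞 ∈ S, VM 𝔞 = (𝔞.radical.inertiaDeg ℤ : ℝ) * Real.log p := by
      intro 𝔞 h𝔞
      obtain ⟨P, k, hP, hk, h1, h2, h3, -⟩ := hSe 𝔞 h𝔞
      rw [h2, h1, VM_pow hP hk, norm_over hpp h3, Nat.cast_pow, Real.log_pow]
    have hinj : Set.InjOn (fun 𝔞 : Ideal (𝓞 K) => 𝔞.radical) S := by
      intro 𝔞 h𝔞 𝔟 h𝔟 hab
      obtain ⟨P, k, hP, hk, h1, h2, h3, h4⟩ := hSe 𝔞 h𝔞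
      obtain ⟨Q, l, hQ, hl, g1, g2, g3, g4⟩ := hSe 𝔟 h𝔟
      have hPQ : P = Q := by rw [← h2, ← g2]; exact hab
      subst hPQ
      have hkl : k = l := by
        have := deg_pos hpp hP h3
        exact Nat.eq_of_mul_eq_mul_left (Nat.pos_of_ne_zero this) (h4.trans g4.symm)
      rw [h1, g1, hkl]
    rw [e1, Finset.sum_congr rfl e2, ← Finset.sum_mul, hΛ]
    refine mul_le_mul_of_nonneg_right ?_ (Real.log_natCast_nonneg p)
    rw [← hsum]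
    push_cast
    have e3 : ∑ 𝔞 ∈ S, ((𝔞.radical.inertiaDeg ℤ : ℕ) : ℝ) =
        ∑ P ∈ S.image (fun 𝔞 => 𝔞.radical), ((P.inertiaDeg ℤ : ℕ) : ℝ) :=
      (Finset.sum_image (f := fun P : Ideal (𝓞 K) => ((P.inertiaDeg ℤ : ℕ) : ℝ)) hinj).symm
    rw [e3]
    have e4 : ∑ q : (span {(p : ℤ)}).primesOver (𝓞 K), ((q.1.ramificationIdx ℤ : ℕ) : ℝ) *
        ((q.1.inertiaDeg ℤ : ℕ) : ℝ) = ∑ P ∈ ((span {(p : ℤ)}).primesOver (𝓞 K)).toFinset,
          ((P.ramificationIdx ℤ : ℕ) : ℝ) * ((P.inertiaDeg ℤ : ℕ) : ℝ) :=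
      Finset.sum_set_coe _ (f := fun P : Ideal (𝓞 K) =>
        ((P.ramificationIdx ℤ : ℕ) : ℝ) * ((P.inertiaDeg ℤ : ℕ) : ℝ))
    rw [e4]
    refine (Finset.sum_le_sum (fun P hP => ?_)).trans (Finset.sum_le_sum_of_subset_of_nonneg
      (f := fun P : Ideal (𝓞 K) => ((P.ramificationIdx ℤ : ℕ) : ℝ) * ((P.inertiaDeg ℤ : ℕ) : ℝ))
      (s := S.image (fun 𝔞 => 𝔞.radical)) ?_ ?_)
    · rw [Finset.mem_image] at hP
      obtain ⟨𝔞, h𝔞, rfl⟩ := hP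
      obtain ⟨P, k, hP, hk, h1, h2, h3, h4⟩ := hSe 𝔞 h𝔞
      rw [h2]
      have h5 : P.IsPrime := isPrime_of_prime hP
      have h6 : 1 ≤ P.ramificationIdx ℤ := ramificationIdx_pos P ℤ
      have h7 : (1 : ℝ) ≤ ((P.ramificationIdx ℤ : ℕ) : ℝ) := by exact_mod_cast h6
      exact le_mul_of_one_le_left (Nat.cast_nonneg _) h7
    · intro P hP
      rw [Finset.mem_image] at hP
      obtain ⟨𝔞, h𝔞, rfl⟩ := hP
      obtain ⟨P, k, hP, hk, h1, h2, h3, h4⟩ := hSe 𝔞 h𝔞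
      rw [h2, Set.mem_toFinset]
      exact h3
    · intro P _ _
      positivity
  · have h0 : ArithmeticFunction.vonMangoldt n = 0 := by
      rw [ArithmeticFunction.vonMangoldt_apply, if_neg h]
    rw [h0, mul_zero]
    refine le_of_eq (finsum_mem_eq_zero_of_forall_eq_zero fun 𝔞 h𝔞 => ?_)
    refine VM_of_not fun h3 => h ?_
    have := pp_of h3
    rwa [show absNorm 𝔞 = n from h𝔞] at this

/-- `|cc ψ n| ≤ [K : ℚ]` -/
lemma norm_cc_le (ψ : Ideal (𝓞 K) →*₀ ℂ) (hψ : ∀ 𝔞, ‖ψ 𝔞‖ ≤ 1) (n : ℕ) :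
    ‖cc ψ n‖ ≤ Module.finrank ℚ K := by
  by_cases h : ArithmeticFunction.vonMangoldt n = 0
  · unfold cc
    rw [h, ofReal_zero, div_zero, norm_zero]
    exact Nat.cast_nonneg _
  · have hΛ : 0 < ArithmeticFunction.vonMangoldt n :=
      lt_of_le_of_ne ArithmeticFunction.vonMangoldt_nonneg (Ne.symm h)
    have h1 := cc_mul ψ n
    have h2 : ‖cc ψ n‖ * ArithmeticFunction.vonMangoldt n =
        ‖∑ᶠ 𝔞 ∈ NN K n, (VM 𝔞 : ℂ) * ψ 𝔞‖ := by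
      rw [← h1, norm_mul, norm_real, Real.norm_of_nonneg hΛ.le]
    have h3 : ‖∑ᶠ 𝔞 ∈ NN K n, (VM 𝔞 : ℂ) * ψ 𝔞‖ ≤ ∑ᶠ 𝔞 ∈ NN K n, VM 𝔞 := by
      rw [finsum_mem_eq_finite_toFinset_sum _ (NN_finite n),
        finsum_mem_eq_finite_toFinset_sum _ (NN_finite n)]
      refine norm_sum_le_of_le _ fun 𝔞 _ => ?_
      rw [norm_mul, norm_real, Real.norm_of_nonneg (VM_nonneg _)]
      exact mul_le_of_le_one_right (VM_nonneg _) (hψ 𝔞)
    have h4 := sum_VM_le (K := K) n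
    have h5 : ‖cc ψ n‖ * ArithmeticFunction.vonMangoldt n ≤
        Module.finrank ℚ K * ArithmeticFunction.vonMangoldt n := by
      rw [h2]
      exact h3.trans h4
    exact le_of_mul_le_mul_right h5 hΛ

/-- the value of `cc` at a prime -/
lemma cc_prime (ψ : Ideal (𝓞 K) →*₀ ℂ) {p : ℕ} (hp : p.Prime) :
    cc ψ p = ∑ᶠ 𝔭 ∈ {𝔭 : Ideal (𝓞 K) | absNorm 𝔭 = p}, ψ 𝔭 := by
  have hl : Real.log p ≠ 0 := by
    have : (1 : ℝ) < p := by exact_mod_cast hp.one_lt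
    exact (Real.log_pos this).ne'
  have h1 := cc_mul ψ p
  rw [ArithmeticFunction.vonMangoldt_apply_prime hp] at h1
  have h2 : ∑ᶠ 𝔞 ∈ NN K p, (VM 𝔞 : ℂ) * ψ 𝔞 =
      (Real.log p : ℂ) * ∑ᶠ 𝔭 ∈ {𝔭 : Ideal (𝓞 K) | absNorm 𝔭 = p}, ψ 𝔭 := by
    rw [mul_finsum_mem]
    refine finsum_mem_congr rfl fun 𝔞 h𝔞 => ?_
    have h3 : absNorm 𝔞 = p := h𝔞
    have h4 : 𝔞.IsPrime := isPrime_of_irreducible_absNorm (by rw [h3]; exact hp)
    have h5 : 𝔞 ≠ ⊥ := by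
      rintro rfl
      rw [absNorm_bot] at h3
      exact hp.ne_zero h3.symm
    have h6 : Prime 𝔞 := prime_of_isPrime h5 h4
    have h7 := VM_pow h6 one_ne_zero
    rw [pow_one, h3] at h7
    rw [h7]
  rw [h2, mul_comm] at h1
  exact mul_left_cancel₀ (by exact_mod_cast hl) h1

/-- twisting -/
lemma cc_tw (ψ : Ideal (𝓞 K) →*₀ ℂ) {q : ℕ} (χ : DirichletCharacter ℂ q) (n : ℕ) :
    cc (tw ψ χ) n = χ (n : ZMod q) * cc ψ n := by
  unfold cc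
  rw [← mul_div_assoc]
  congr 1
  rw [mul_finsum_mem]
  refine finsum_mem_congr rfl fun 𝔞 h𝔞 => ?_
  have h3 : absNorm 𝔞 = n := h𝔞
  change (VM 𝔞 : ℂ) * (ψ 𝔞 * χ ((absNorm 𝔞 : ℕ) : ZMod q)) = _
  rw [h3]
  ring

end Pool.Agent.Y772.DK
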