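import Pool.Agent.Y772.DK.Dir

/-!
# Dirichlet series of completely multiplicative functions on the ideals: the theorem
-/

set_option autoImplicit false

open NumberField Complex Filter Topology Ideal

namespace Pool.Agent.Y772.DK

open Pool.Agent.Y773

variable {K : Type} [Field K] [NumberField K]

/-- the coefficients of `log L` -/
noncomputable def ee (ψ : Ideal (𝓞 K) →*₀ ℂ) (𝔞 : Ideal (𝓞 K)) : ℂ :=
  ((VM 𝔞 / Real.log (absNorm 𝔞) : ℝ) : ℂ) * ψ 𝔞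

lemma ee_zero (ψ : Ideal (𝓞 K) →*₀ ℂ) : ee ψ 0 = 0 := by
  unfold ee
  rw [show ψ 0 = 0 from map_zero ψ, mul_zero]

lemma ee_one (ψ : Ideal (𝓞 K) →*₀ ℂ) : ee ψ 1 = 0 := by
  unfold ee
  rw [show absNorm (1 : Ideal (𝓞 K)) = 1 from map_one _, Nat.cast_one, Real.log_one, div_zero,
    ofReal_zero, zero_mul]

lemma ee_le (ψ : Ideal (𝓞 K) →*₀ ℂ) (hψ : ∀ 𝔞, ‖ψ 𝔞‖ ≤ 1) (𝔞 : Ideal (𝓞 K)) : ‖ee ψ 𝔞‖ ≤ 1 := by
  by_cases h : 𝔞 = 0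
  · rw [h, ee_zero, norm_zero]
    exact zero_le_one
  unfold ee
  rw [norm_mul, norm_real, Real.norm_of_nonneg
    (div_nonneg (VM_nonneg _) (Real.log_natCast_nonneg _))]
  have h1 : VM 𝔞 / Real.log (absNorm 𝔞) ≤ 1 :=
    div_le_one_of_le₀ (VM_le h) (Real.log_natCast_nonneg _)
  calc VM 𝔞 / Real.log (absNorm 𝔞) * ‖ψ 𝔞‖ ≤ 1 * 1 :=
        mul_le_mul h1 (hψ 𝔞) (norm_nonneg _) zero_le_one
    _ = 1 := one_mul 1

lemma log_mul_ee (ψ : Ideal (𝓞 K) →*₀ ℂ) (𝔞 : Ideal (𝓞 K)) :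
    (Real.log (absNorm 𝔞) : ℂ) * ee ψ 𝔞 = (VM 𝔞 : ℂ) * ψ 𝔞 := by
  by_cases h : 𝔞 = 0
  · rw [h, ee_zero, mul_zero, map_zero, mul_zero]
  unfold ee
  rw [← mul_assoc, ← ofReal_mul]
  congr 2
  by_cases h1 : Real.log (absNorm 𝔞) = 0
  · have h2 := VM_le h
    have h3 := VM_nonneg 𝔞
    rw [h1] at h2 ⊢
    rw [zero_mul]
    linarith
  · exact mul_div_cancel₀ _ h1

section main

variable (ψ : Ideal (𝓞 K) →*₀ ℂ) (hψ : ∀ 𝔞, ‖ψ 𝔞‖ ≤ 1)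

include hψ

/-- the series of the logarithmic derivative over the ideals -/
lemma D_hasSum {s : ℂ} (hs : 1 < s.re) :
    HasSum (fun 𝔞 : Ideal (𝓞 K) => (VM 𝔞 : ℂ) * ψ 𝔞 * ((absNorm 𝔞 : ℕ) : ℂ) ^ (-s))
      (-(deriv (LA (ee ψ)) s)) := by
  have h := (LA_diff (ee_zero ψ) (ee_le ψ hψ) hs).2.neg
  refine h.congr_fun fun 𝔞 => ?_
  rw [← log_mul_ee]
  ring

/-- `L' = -L D` -/
lemma deriv_LI {s : ℂ} (hs : 1 < s.re) :
    deriv (LI ψ) s = deriv (LA (ee ψ)) s * LI ψ s := by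
  have hψ0 : ψ 0 = 0 := map_zero ψ
  have hf := D_hasSum ψ hψ hs
  have hgs := term_summable (a := fun 𝔞 => ψ 𝔞) hψ0 hψ hs
  have hg : HasSum (fun 𝔞 : Ideal (𝓞 K) => ψ 𝔞 * ((absNorm 𝔞 : ℕ) : ℂ) ^ (-s)) (LI ψ s) :=
    hgs.of_norm.hasSum
  have hfg := summable_mul_of_summable_norm hf.summable.norm hgs
  have h1 := (hf.mul hg hfg).tsum_fiberwise
    (fun x : Ideal (𝓞 K) × Ideal (𝓞 K) => x.1 * x.2)
  have h2 : HasSum (fun 𝔞 : Ideal (𝓞 K) => -(Real.log (absNorm 𝔞) : ℂ) *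
      (ψ 𝔞 * ((absNorm 𝔞 : ℕ) : ℂ) ^ (-s))) (deriv (LI ψ) s) :=
    (LA_diff (a := fun 𝔞 => ψ 𝔞) hψ0 hψ hs).2
  have h3 : ∀ 𝔞 : Ideal (𝓞 K),
      ∑' x : ((fun x : Ideal (𝓞 K) × Ideal (𝓞 K) => x.1 * x.2) ⁻¹' {𝔞} : Set _),
        (VM x.1.1 : ℂ) * ψ x.1.1 * ((absNorm x.1.1 : ℕ) : ℂ) ^ (-s) *
          (ψ x.1.2 * ((absNorm x.1.2 : ℕ) : ℂ) ^ (-s)) =
      (Real.log (absNorm 𝔞) : ℂ) * (ψ 𝔞 * ((absNorm 𝔞 : ℕ) : ℂ) ^ (-s)) := by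
    intro 𝔞
    have e1 : ∀ x : ((fun x : Ideal (𝓞 K) × Ideal (𝓞 K) => x.1 * x.2) ⁻¹' {𝔞} : Set _),
        (VM x.1.1 : ℂ) * ψ x.1.1 * ((absNorm x.1.1 : ℕ) : ℂ) ^ (-s) *
          (ψ x.1.2 * ((absNorm x.1.2 : ℕ) : ℂ) ^ (-s)) =
        (VM x.1.1 : ℂ) * (ψ 𝔞 * ((absNorm 𝔞 : ℕ) : ℂ) ^ (-s)) := by
      rintro ⟨⟨d, c⟩, hx⟩
      have hx' : d * c = 𝔞 := hx
      simp only
      rw [← hx', map_mul, map_mul, Nat.cast_mul, Complex.natCast_mul_natCast_cpow]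
      ring
    rw [tsum_congr e1, tsum_mul_right]
    by_cases h : 𝔞 = 0
    · rw [h, hψ0, zero_mul, mul_zero, mul_zero]
    · rw [← ofReal_tsum, fib_VM h]
  have h4 : HasSum (fun 𝔞 : Ideal (𝓞 K) => -(Real.log (absNorm 𝔞) : ℂ) *
      (ψ 𝔞 * ((absNorm 𝔞 : ℕ) : ℂ) ^ (-s))) (-(-(deriv (LA (ee ψ)) s) * LI ψ s)) := by
    refine h1.neg.congr_fun fun 𝔞 => ?_
    rw [h3 𝔞]
    ring
  have h5 := h2.unique h4
  rw [h5]
  ring

/-- `L = exp E` -/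
lemma LI_eq_exp {s : ℂ} (hs : 1 < s.re) : LI ψ s = Complex.exp (LA (ee ψ) s) := by
  have hψ0 : ψ 0 = 0 := map_zero ψ
  set U : Set ℂ := {w | 1 < w.re} with hU
  have hUo : IsOpen U := isOpen_lt continuous_const continuous_re
  have hUc : IsPreconnected U := (convex_halfSpace_re_gt 1).isPreconnected
  set h : ℂ → ℂ := fun w => LI ψ w * Complex.exp (-(LA (ee ψ) w)) with hh
  have hd1 : ∀ w ∈ U, HasDerivAt (LI ψ) (deriv (LI ψ) w) w := fun w hw =>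
    (LA_diff (a := fun 𝔞 => ψ 𝔞) hψ0 hψ hw).1.hasDerivAt
  have hd2 : ∀ w ∈ U, HasDerivAt (LA (ee ψ)) (deriv (LA (ee ψ)) w) w := fun w hw =>
    (LA_diff (ee_zero ψ) (ee_le ψ hψ) hw).1.hasDerivAt
  have hd : ∀ w ∈ U, HasDerivAt h 0 w := by
    intro w hw
    have h1 := (hd1 w hw).mul (hd2 w hw).neg.cexp
    refine h1.congr_deriv ?_
    rw [deriv_LI ψ hψ hw]
    ring
  have hconst : ∀ w ∈ U, h w = h s := fun w hw =>
    hUo.is_const_of_deriv_eq_zero hUc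
      (fun z hz => (hd z hz).differentiableAt.differentiableWithinAt)
      (fun z hz => (hd z hz).deriv) hw hs
  have ht : Tendsto (fun σ : ℝ => h (σ : ℂ)) atTop (𝓝 (1 * Complex.exp (-0))) := by
    have t1 := LA_tendsto (a := fun 𝔞 => ψ 𝔞) hψ0 hψ
    have t2 := LA_tendsto (ee_zero ψ) (ee_le ψ hψ)
    rw [ee_one] at t2
    simp only [map_one] at t1
    exact t1.mul ((Complex.continuous_exp.tendsto _).comp t2.neg)
  have ht2 : Tendsto (fun σ : ℝ => h (σ : ℂ)) atTop (𝓝 (h s)) := by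
    refine tendsto_const_nhds.congr' ?_
    filter_upwards [eventually_gt_atTop 1] with σ hσ
    exact (hconst (σ : ℂ) (by simpa [hU] using hσ)).symm
  have h1 := tendsto_nhds_unique ht2 ht
  rw [neg_zero, Complex.exp_zero, mul_one] at h1
  have h2 : LI ψ s * Complex.exp (-(LA (ee ψ) s)) = 1 := h1
  calc LI ψ s = LI ψ s * Complex.exp (-(LA (ee ψ) s)) * Complex.exp (LA (ee ψ) s) := by
        rw [mul_assoc, ← Complex.exp_add, neg_add_cancel, Complex.exp_zero, mul_one]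
    _ = Complex.exp (LA (ee ψ) s) := by rw [h2, one_mul]

/-- the series over the integers -/
lemma D_eq {s : ℂ} (hs : 1 < s.re) : deriv (LA (ee ψ)) s =
    - ∑' n : ℕ, cc ψ n * (ArithmeticFunction.vonMangoldt n : ℂ) * (n : ℂ) ^ (-s) := by
  have h1 := (D_hasSum ψ hψ hs).tsum_fiberwise (fun 𝔞 : Ideal (𝓞 K) => absNorm 𝔞)
  have h2 : ∀ n : ℕ, ∑' 𝔞 : ((fun 𝔞 : Ideal (𝓞 K) => absNorm 𝔞) ⁻¹' {n} : Set (Ideal (𝓞 K))),
      (VM 𝔞.1 : ℂ) * ψ 𝔞.1 * ((absNorm 𝔞.1 : ℕ) : ℂ) ^ (-s) =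
      cc ψ n * (ArithmeticFunction.vonMangoldt n : ℂ) * (n : ℂ) ^ (-s) := by
    intro n
    have e1 : ∀ 𝔞 : ((fun 𝔞 : Ideal (𝓞 K) => absNorm 𝔞) ⁻¹' {n} : Set (Ideal (𝓞 K))),
        (VM 𝔞.1 : ℂ) * ψ 𝔞.1 * ((absNorm 𝔞.1 : ℕ) : ℂ) ^ (-s) =
        (VM 𝔞.1 : ℂ) * ψ 𝔞.1 * (n : ℂ) ^ (-s) := by
      rintro ⟨𝔞, h𝔞⟩
      have h𝔞' : absNorm 𝔞 = n := h𝔞
      simp only
      rw [h𝔞']
    rw [tsum_congr e1, tsum_mul_right, cc_mul]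
    congr 1
    have hfin : Finite ((fun 𝔞 : Ideal (𝓞 K) => absNorm 𝔞) ⁻¹' {n} : Set (Ideal (𝓞 K))) :=
      NN_finite n
    rw [tsum_eq_finsum (Set.toFinite _)]
    exact finsum_set_coe_eq_finsum_mem
      (f := fun 𝔞 : Ideal (𝓞 K) => (VM 𝔞 : ℂ) * ψ 𝔞) (NN K n)
  have h3 := h1.tsum_eq
  rw [tsum_congr h2] at h3
  rw [h3, neg_neg]

end main

/-- DIR -/
theorem t_dirK : StDirK := by
  intro K _ _
  -- the constants
  set S1 : ℝ := ∑' 𝔞 : Ideal (𝓞 K), nr K (3 / 2) 𝔞 with hS1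
  set S2 : ℝ := ∑' 𝔞 : Ideal (𝓞 K), nr K 2 𝔞 with hS2
  have hΛs : Summable (fun n : ℕ => ArithmeticFunction.vonMangoldt n *
      (n : ℝ) ^ (-(3 / 2) : ℝ)) := by
    have h1 := (ArithmeticFunction.LSeriesSummable_vonMangoldt
      (s := ((3 / 2 : ℝ) : ℂ)) (by rw [ofReal_re]; norm_num)).norm
    refine h1.congr fun n => ?_
    rw [LSeries.norm_term_eq]
    rcases eq_or_ne n 0 with rfl | hn
    · simp
    · rw [if_neg hn, Complex.norm_real, Real.norm_of_nonneg ArithmeticFunction.vonMangoldt_nonneg,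
        Complex.ofReal_re, Real.rpow_neg (Nat.cast_nonneg n), div_eq_mul_inv]
  set S3 : ℝ := ∑' n : ℕ, Module.finrank ℚ K * (ArithmeticFunction.vonMangoldt n *
      (n : ℝ) ^ (-(3 / 2) : ℝ)) with hS3
  have hS1n : 0 ≤ S1 := tsum_nonneg fun 𝔞 => nr_nonneg K _ 𝔞
  have hS3n : 0 ≤ S3 := tsum_nonneg fun n => mul_nonneg (Nat.cast_nonneg _)
    (mul_nonneg ArithmeticFunction.vonMangoldt_nonneg (Real.rpow_nonneg (Nat.cast_nonneg n) _))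
  refine ⟨1 + S1 + S3 + Real.exp S2, ?_, ?_⟩
  · have := Real.exp_pos S2
    linarith
  intro ψ hψ
  have hψ0 : ψ 0 = 0 := map_zero ψ
  have hterm : ∀ n : ℕ, ArithmeticFunction.vonMangoldt n * ‖cc ψ n‖ * (n : ℝ) ^ (-(3 / 2) : ℝ) ≤
      Module.finrank ℚ K * (ArithmeticFunction.vonMangoldt n * (n : ℝ) ^ (-(3 / 2) : ℝ)) := by
    intro n
    have h1 := norm_cc_le ψ hψ n
    have h2 : 0 ≤ ArithmeticFunction.vonMangoldt n * (n : ℝ) ^ (-(3 / 2) : ℝ) :=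
      mul_nonneg ArithmeticFunction.vonMangoldt_nonneg (Real.rpow_nonneg (Nat.cast_nonneg n) _)
    nlinarith [mul_le_mul_of_nonneg_right h1 h2]
  have hsumm : Summable (fun n : ℕ => ArithmeticFunction.vonMangoldt n * ‖cc ψ n‖ *
      (n : ℝ) ^ (-(3 / 2) : ℝ)) := by
    refine Summable.of_nonneg_of_le (fun n => ?_) hterm (hΛs.mul_left _)
    exact mul_nonneg (mul_nonneg ArithmeticFunction.vonMangoldt_nonneg (norm_nonneg _))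
      (Real.rpow_nonneg (Nat.cast_nonneg n) _)
  refine ⟨fun s hs => term_summable (a := fun 𝔞 => ψ 𝔞) hψ0 hψ hs,
    fun s hs => (LA_diff (a := fun 𝔞 => ψ 𝔞) hψ0 hψ hs).1, fun s hs => ?_, fun s hs => ?_,
    fun s hs => ?_, fun s hs => ?_, norm_cc_le ψ hψ, fun p hp => cc_prime ψ hp, hsumm, ?_,
    fun q χ n => cc_tw ψ χ n⟩
  · rw [LI_eq_exp ψ hψ hs]
    exact Complex.exp_ne_zero _
  · rw [deriv_LI ψ hψ hs, D_eq ψ hψ hs, mul_div_assoc, div_self, mul_one]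
    rw [LI_eq_exp ψ hψ hs]
    exact Complex.exp_ne_zero _
  · have h1 : ‖LI ψ s‖ ≤ S1 := LA_le (a := fun 𝔞 => ψ 𝔞) hψ0 hψ (by norm_num) hs
    have := Real.exp_pos S2
    linarith
  · have hs' : 1 < s.re := by linarith
    rw [LI_eq_exp ψ hψ hs', Complex.norm_exp]
    have h1 : ‖LA (ee ψ) s‖ ≤ S2 := LA_le (ee_zero ψ) (ee_le ψ hψ) (by norm_num) hs
    have h2 : -S2 ≤ (LA (ee ψ) s).re := by
      have := (abs_le.1 ((abs_re_le_norm (LA (ee ψ) s)).trans h1)).1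
      exact this
    calc (1 + S1 + S3 + Real.exp S2)⁻¹ ≤ (Real.exp S2)⁻¹ := by
          refine inv_anti₀ (Real.exp_pos _) ?_
          linarith
      _ = Real.exp (-S2) := (Real.exp_neg S2).symm
      _ ≤ Real.exp (LA (ee ψ) s).re := Real.exp_le_exp.2 h2
  · have h1 := hsumm.tsum_le_tsum hterm (hΛs.mul_left (Module.finrank ℚ K : ℝ))
    have := Real.exp_pos S2
    linarith

end Pool.Agent.Y772.DK
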