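import Pool.Agent.Y772.DK.Cc
import Pool.Agent.Y773.HK.Stm
import Pool.Agent.H484R2.Zeta

/-!
# Dirichlet series of completely multiplicative functions on the ideals: analysis
-/

set_option autoImplicit false

open NumberField Complex Filter Topology Ideal

namespace Pool.Agent.Y772.DK

open Pool.Agent.Y773

variable (K : Type) [Field K] [NumberField K]

/-- the norm to the power `-σ` -/
noncomputable def nr (σ : ℝ) (𝔞 : Ideal (𝓞 K)) : ℝ := ((absNorm 𝔞 : ℕ) : ℝ) ^ (-σ)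

lemma nr_nonneg (σ : ℝ) (𝔞 : Ideal (𝓞 K)) : 0 ≤ nr K σ 𝔞 := Real.rpow_nonneg (Nat.cast_nonneg _) _

lemma nr_summable {σ : ℝ} (hσ : 1 < σ) : Summable (nr K σ) := by
  have h1 := (Pool.Agent.H484R2.hasSum_ideals K (s := (σ : ℂ)) (by simpa using hσ)).summable.norm
  have h2 : Function.support (nr K σ) ⊆ {𝔞 | 𝔞 ≠ ⊥} := by
    intro 𝔞 h
    rw [Function.mem_support] at h
    intro h0
    apply h
    unfold nr
    rw [h0, absNorm_bot, Nat.cast_zero, Real.zero_rpow (by linarith)]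
  have h3 : Summable (nr K σ ∘ ((↑) : {𝔞 : Ideal (𝓞 K) | 𝔞 ≠ ⊥} → Ideal (𝓞 K))) := by
    refine h1.congr fun I => ?_
    have hI : 0 < absNorm I.1 := absNorm_pos' I.2
    rw [Complex.norm_natCast_cpow_of_pos hI, neg_re, ofReal_re]
    rfl
  rw [summable_subtype_iff_indicator, Set.indicator_eq_self.2 h2] at h3
  exact h3

variable {K}

lemma nr_anti {σ σ' : ℝ} (h : σ ≤ σ') {𝔞 : Ideal (𝓞 K)} (h𝔞 : 𝔞 ≠ 0) : nr K σ' 𝔞 ≤ nr K σ 𝔞 := by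
  unfold nr
  refine Real.rpow_le_rpow_of_exponent_le ?_ (by linarith)
  exact_mod_cast absNorm_pos' h𝔞

/-- the Dirichlet series with coefficients `a` -/
noncomputable def LA (a : Ideal (𝓞 K) → ℂ) (s : ℂ) : ℂ :=
  ∑' 𝔞 : Ideal (𝓞 K), a 𝔞 * ((absNorm 𝔞 : ℕ) : ℂ) ^ (-s)

section coeff

variable {a : Ideal (𝓞 K) → ℂ} (h0 : a 0 = 0) (ha : ∀ 𝔞, ‖a 𝔞‖ ≤ 1)

include h0 ha

lemma term_le {σ : ℝ} {s : ℂ} (hs : σ ≤ s.re) (𝔞 : Ideal (𝓞 K)) :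
    ‖a 𝔞 * ((absNorm 𝔞 : ℕ) : ℂ) ^ (-s)‖ ≤ nr K σ 𝔞 := by
  by_cases h : 𝔞 = 0
  · rw [h, h0, zero_mul, norm_zero]
    exact nr_nonneg K _ _
  · rw [norm_mul, Complex.norm_natCast_cpow_of_pos (absNorm_pos' h), neg_re]
    calc ‖a 𝔞‖ * ((absNorm 𝔞 : ℕ) : ℝ) ^ (-s.re) ≤ 1 * nr K s.re 𝔞 :=
          mul_le_mul_of_nonneg_right (ha 𝔞) (nr_nonneg K _ _)
      _ = nr K s.re 𝔞 := one_mul _
      _ ≤ nr K σ 𝔞 := nr_anti hs h

lemma term_summable {s : ℂ} (hs : 1 < s.re) :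
    Summable fun 𝔞 : Ideal (𝓞 K) => ‖a 𝔞 * ((absNorm 𝔞 : ℕ) : ℂ) ^ (-s)‖ :=
  Summable.of_nonneg_of_le (fun _ => norm_nonneg _) (fun 𝔞 => term_le h0 ha le_rfl 𝔞)
    (nr_summable K hs)

lemma LA_le {σ : ℝ} (hσ : 1 < σ) {s : ℂ} (hs : σ ≤ s.re) : ‖LA a s‖ ≤ ∑' 𝔞, nr K σ 𝔞 :=
  tsum_of_norm_bounded (nr_summable K hσ).hasSum (fun 𝔞 => term_le h0 ha hs 𝔞)

lemma LA_diff {s : ℂ} (hs : 1 < s.re) : DifferentiableAt ℂ (LA a) s ∧
    HasSum (fun 𝔞 : Ideal (𝓞 K) => -(Real.log (absNorm 𝔞) : ℂ) *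
      (a 𝔞 * ((absNorm 𝔞 : ℕ) : ℂ) ^ (-s))) (deriv (LA a) s) := by
  obtain ⟨σ, hσ1, hσs⟩ := exists_between hs
  set U : Set ℂ := {w | σ < w.re} with hU
  have hUo : IsOpen U := isOpen_lt continuous_const continuous_re
  have hder : ∀ (𝔞 : Ideal (𝓞 K)) (w : ℂ), HasDerivAt
      (fun w : ℂ => a 𝔞 * ((absNorm 𝔞 : ℕ) : ℂ) ^ (-w))
      (-(Real.log (absNorm 𝔞) : ℂ) * (a 𝔞 * ((absNorm 𝔞 : ℕ) : ℂ) ^ (-w))) w := by
    intro 𝔞 w
    by_cases h : 𝔞 = 0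
    · rw [h, h0]
      simp only [zero_mul, mul_zero]
      exact hasDerivAt_const _ _
    · have h1 : ((absNorm 𝔞 : ℕ) : ℂ) ≠ 0 := by exact_mod_cast (absNorm_pos' h).ne'
      have h2 : HasDerivAt (fun w : ℂ => a 𝔞 * ((absNorm 𝔞 : ℕ) : ℂ) ^ (-w))
          (a 𝔞 * (((absNorm 𝔞 : ℕ) : ℂ) ^ (-w) * Complex.log ((absNorm 𝔞 : ℕ) : ℂ) * -1)) w :=
        ((hasDerivAt_id w).neg.const_cpow (c := ((absNorm 𝔞 : ℕ) : ℂ))
          (Or.inl h1)).const_mul (a 𝔞)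
      refine h2.congr_deriv ?_
      rw [Complex.natCast_log]
      ring
  have hdo : ∀ 𝔞 : Ideal (𝓞 K), DifferentiableOn ℂ
      (fun w : ℂ => a 𝔞 * ((absNorm 𝔞 : ℕ) : ℂ) ^ (-w)) U :=
    fun 𝔞 w _ => (hder 𝔞 w).differentiableAt.differentiableWithinAt
  have hb : ∀ (𝔞 : Ideal (𝓞 K)) (w : ℂ), w ∈ U →
      ‖a 𝔞 * ((absNorm 𝔞 : ℕ) : ℂ) ^ (-w)‖ ≤ nr K σ 𝔞 :=
    fun 𝔞 w hw => term_le h0 ha (le_of_lt hw) 𝔞
  constructor
  · exact (differentiableOn_tsum_of_summable_norm (nr_summable K hσ1) hdo hUo hb).differentiableAt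
      (hUo.mem_nhds hσs)
  · have h3 := hasSum_deriv_of_summable_norm (nr_summable K hσ1) hdo hUo hb hσs
    have h4 : (fun 𝔞 : Ideal (𝓞 K) => deriv (fun w : ℂ => a 𝔞 * ((absNorm 𝔞 : ℕ) : ℂ) ^ (-w)) s) =
        fun 𝔞 : Ideal (𝓞 K) => -(Real.log (absNorm 𝔞) : ℂ) *
      (a 𝔞 * ((absNorm 𝔞 : ℕ) : ℂ) ^ (-s)) := by
      funext 𝔞
      exact (hder 𝔞 s).deriv
    rw [h4] at h3
    exact h3

lemma LA_tendsto : Tendsto (fun σ : ℝ => LA a (σ : ℂ)) atTop (𝓝 (a 1)) := by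
  classical
  have h1 : ∑' 𝔞 : Ideal (𝓞 K), (if 𝔞 = 1 then a 1 else 0) = a 1 := tsum_ite_eq 1 (fun _ => a 1)
  rw [← h1]
  unfold LA
  refine tendsto_tsum_of_dominated_convergence (nr_summable K (σ := 2) (by norm_num)) ?_ ?_
  · intro 𝔞
    by_cases h : 𝔞 = 0
    · rw [h, h0, if_neg zero_ne_one]
      simp only [zero_mul]
      exact tendsto_const_nhds
    by_cases h2 : 𝔞 = 1
    · rw [h2, if_pos rfl, map_one]
      simp only [Nat.cast_one, Complex.one_cpow, mul_one]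
      exact tendsto_const_nhds
    rw [if_neg h2]
    have h3 : 1 < absNorm 𝔞 := by
      have h4 := absNorm_pos' h
      have h5 : absNorm 𝔞 ≠ 1 := by
        rw [Ne, absNorm_eq_one_iff, ← Ideal.one_eq_top]
        exact h2
      omega
    rw [← mul_zero (a 𝔞)]
    refine Tendsto.const_mul _ ?_
    rw [tendsto_zero_iff_norm_tendsto_zero]
    have h6 : (fun σ : ℝ => ‖((absNorm 𝔞 : ℕ) : ℂ) ^ (-(σ : ℂ))‖) =
        fun σ : ℝ => ((absNorm 𝔞 : ℕ) : ℝ) ^ (-σ) := by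
      funext σ
      rw [Complex.norm_natCast_cpow_of_pos (by omega), neg_re, ofReal_re]
    rw [h6]
    have h7 : (1 : ℝ) < ((absNorm 𝔞 : ℕ) : ℝ) := by exact_mod_cast h3
    have h8 := tendsto_rpow_atBot_of_base_gt_one _ h7
    exact h8.comp tendsto_neg_atTop_atBot
  · filter_upwards [eventually_ge_atTop 2] with σ hσ
    intro 𝔞
    exact term_le h0 ha (by simpa using hσ) 𝔞

end coeff

end Pool.Agent.Y772.DK
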