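import Pool.Agent.Y773.HK.Defs

/-!
# The von Mangoldt function on the ideals of a number field
-/

set_option autoImplicit false

open NumberField Complex Filter Topology Ideal

namespace Pool.Agent.Y772.DK

open Pool.Agent.Y773

variable {K : Type} [Field K] [NumberField K]

lemma VM_nonneg (𝔞 : Ideal (𝓞 K)) : 0 ≤ VM 𝔞 := by
  unfold VM
  split_ifs
  · exact Real.log_natCast_nonneg _
  · exact le_rfl

lemma VM_pow {P : Ideal (𝓞 K)} (hP : Prime P) {k : ℕ} (hk : k ≠ 0) :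
    VM (P ^ k) = Real.log (absNorm P) := by
  have h1 : IsPrimePow (P ^ k) := hP.isPrimePow.pow hk
  have h2 : P.IsPrime := isPrime_of_prime hP
  unfold VM
  rw [if_pos h1, Ideal.radical_pow _ hk, h2.radical]

lemma VM_of_not {𝔞 : Ideal (𝓞 K)} (h : ¬ IsPrimePow 𝔞) : VM 𝔞 = 0 := by
  unfold VM
  rw [if_neg h]

lemma absNorm_pos' {𝔞 : Ideal (𝓞 K)} (h : 𝔞 ≠ 0) : 0 < absNorm 𝔞 :=
  Nat.pos_of_ne_zero (by rwa [Ne, absNorm_eq_zero_iff])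

lemma VM_le {𝔞 : Ideal (𝓞 K)} (h : 𝔞 ≠ 0) : VM 𝔞 ≤ Real.log (absNorm 𝔞) := by
  by_cases h1 : IsPrimePow 𝔞
  · obtain ⟨P, k, hP, hk, rfl⟩ := h1
    rw [VM_pow hP hk.ne', map_pow]
    have hP0 := absNorm_pos' hP.ne_zero
    refine Real.log_le_log (by exact_mod_cast hP0) ?_
    exact_mod_cast Nat.le_self_pow hk.ne' _
  · rw [VM_of_not h1]
    exact Real.log_natCast_nonneg _

lemma finite_dvd {𝔞 : Ideal (𝓞 K)} (h : 𝔞 ≠ 0) : {𝔡 : Ideal (𝓞 K) | 𝔡 ∣ 𝔞}.Finite := by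
  have h2 := UniqueFactorizationMonoid.fintypeSubtypeDvd 𝔞 h
  have h3 : Finite {P : Ideal (𝓞 K) // P ∣ 𝔞} := Finite.of_fintype _
  exact Set.finite_coe_iff.mp h3

/-- the prime powers dividing `𝔞` -/
def DD (𝔞 : Ideal (𝓞 K)) : Set (Ideal (𝓞 K)) := {𝔡 | 𝔡 ∣ 𝔞 ∧ IsPrimePow 𝔡}

lemma DD_step {P 𝔞 : Ideal (𝓞 K)} (h0 : 𝔞 ≠ 0) (hP : Prime P) :
    ∃ v : ℕ, DD (P * 𝔞) = insert (P ^ (v + 1)) (DD 𝔞) ∧ P ^ (v + 1) ∉ DD 𝔞 := by
  obtain ⟨v, c, hc, rfl⟩ := WfDvdMonoid.max_power_factor h0 hP.irreducible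
  refine ⟨v, ?_, ?_⟩
  · ext 𝔡
    constructor
    · rintro ⟨h1, Q, j, hQ, hj, rfl⟩
      by_cases hQP : Q = P
      · subst hQP
        have h2 : Q ^ j ∣ Q ^ (v + 1) := by
          refine hP.pow_dvd_of_dvd_mul_left j hc ?_
          rw [← mul_assoc, ← pow_succ', mul_comm] at h1
          exact h1
        have h3 : j ≤ v + 1 := (pow_dvd_pow_iff hP.ne_zero hP.not_isUnit).1 h2
        rcases Nat.lt_or_ge v j with h4 | h4
        · left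
          rw [show j = v + 1 by omega]
        · right
          exact ⟨(pow_dvd_pow Q h4).mul_right c, ⟨Q, j, hQ, hj, rfl⟩⟩
      · right
        refine ⟨hQ.pow_dvd_of_dvd_mul_left j (fun h => hQP ?_) h1, ⟨Q, j, hQ, hj, rfl⟩⟩
        exact associated_iff_eq.1 (hQ.associated_of_dvd hP h)
    · rintro (rfl | ⟨h1, h2⟩)
      · refine ⟨?_, ⟨P, v + 1, hP, Nat.succ_pos v, rfl⟩⟩
        rw [pow_succ']
        exact mul_dvd_mul_left P (Dvd.intro _ rfl)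
      · exact ⟨h1.mul_left P, h2⟩
  · rintro ⟨h1, -⟩
    rw [pow_succ] at h1
    exact hc ((mul_dvd_mul_iff_left (pow_ne_zero v hP.ne_zero)).1 h1)

lemma sum_DD (𝔞 : Ideal (𝓞 K)) (h : 𝔞 ≠ 0) : ∑ᶠ 𝔡 ∈ DD 𝔞, VM 𝔡 = Real.log (absNorm 𝔞) := by
  induction 𝔞 using UniqueFactorizationMonoid.induction_on_prime with
  | h₁ => exact absurd rfl h
  | h₂ x hx =>
    have h1 : DD x = ∅ := by
      ext 𝔡
      simp only [Set.mem_empty_iff_false, iff_false]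
      rintro ⟨h2, h3⟩
      exact h3.not_isUnit (isUnit_of_dvd_unit h2 hx)
    rw [h1, finsum_mem_empty, Ideal.isUnit_iff.1 hx, absNorm_top, Nat.cast_one, Real.log_one]
  | h₃ a p ha hp ih =>
    obtain ⟨v, h1, h2⟩ := DD_step ha hp
    have hfin : (DD a).Finite := (finite_dvd ha).subset fun 𝔡 h => h.1
    rw [h1, finsum_mem_insert _ h2 hfin, ih ha, VM_pow hp (Nat.succ_ne_zero v), map_mul,
      Nat.cast_mul, Real.log_mul]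
    · exact_mod_cast (absNorm_pos' hp.ne_zero).ne'
    · exact_mod_cast (absNorm_pos' ha).ne'

lemma sum_VM (𝔞 : Ideal (𝓞 K)) (h : 𝔞 ≠ 0) :
    ∑ᶠ 𝔡 ∈ {𝔡 : Ideal (𝓞 K) | 𝔡 ∣ 𝔞}, VM 𝔡 = Real.log (absNorm 𝔞) := by
  rw [← sum_DD 𝔞 h]
  refine finsum_mem_inter_support_eq _ _ _ ?_
  ext 𝔡
  constructor
  · rintro ⟨h1, h2⟩
    refine ⟨⟨h1, ?_⟩, h2⟩
    by_contra h3
    exact h2 (VM_of_not h3)
  · rintro ⟨⟨h1, -⟩, h2⟩
    exact ⟨h1, h2⟩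

/-- the pairs `(𝔡, 𝔠)` with `𝔡 𝔠 = 𝔞` -/
noncomputable def fibEquiv {𝔞 : Ideal (𝓞 K)} (h : 𝔞 ≠ 0) :
    ({𝔡 : Ideal (𝓞 K) | 𝔡 ∣ 𝔞} : Set (Ideal (𝓞 K))) ≃
      ((fun x : Ideal (𝓞 K) × Ideal (𝓞 K) => x.1 * x.2) ⁻¹' {𝔞} : Set _) where
  toFun d := ⟨(d.1, d.2.choose), d.2.choose_spec.symm⟩
  invFun x := ⟨x.1.1, x.1.2, x.2.symm⟩
  left_inv d := rfl
  right_inv x := by
    obtain ⟨⟨d, c⟩, hx⟩ := x
    have hx' : d * c = 𝔞 := hx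
    have hd : d ≠ 0 := by
      rintro rfl
      rw [zero_mul] at hx'
      exact h hx'.symm
    have hdv : d ∣ 𝔞 := ⟨c, hx'.symm⟩
    apply Subtype.ext
    apply Prod.ext
    · rfl
    · have h1 : 𝔞 = d * hdv.choose := hdv.choose_spec
      refine mul_left_cancel₀ hd ?_
      change d * hdv.choose = d * c
      rw [← h1, hx']

lemma fib_VM {𝔞 : Ideal (𝓞 K)} (h : 𝔞 ≠ 0) :
    ∑' x : ((fun x : Ideal (𝓞 K) × Ideal (𝓞 K) => x.1 * x.2) ⁻¹' {𝔞} : Set _), VM x.1.1 =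
      Real.log (absNorm 𝔞) := by
  rw [← (fibEquiv h).tsum_eq]
  have hfin : Finite ({𝔡 : Ideal (𝓞 K) | 𝔡 ∣ 𝔞} : Set (Ideal (𝓞 K))) := finite_dvd h
  rw [tsum_eq_finsum (Set.toFinite _), ← sum_VM 𝔞 h, ← finsum_set_coe_eq_finsum_mem]
  rfl

end Pool.Agent.Y772.DK
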